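import Pool.Agent.K7.H70.SE.Gl

/-!
# The fixed fields
-/

set_option autoImplicit false

namespace Pool.Agent.K7.H70.SE

open Pool.Agent.K7.H70.EQ

open NumberField IsDedekindDomain
open Pool.Agent.Y696
open Pool.Agent.W189.NF (aV eV redMap Ov card_res finite_res)
open Pool.Agent.H921R2.TatePole (nm two_le_nm nm_summable)
open scoped Classical

section
variable {K F : Type} [Field K] [NumberField K] [Field F] [NumberField F] [Algebra K F]

/-- the prime of the integers lies above -/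
lemma und0_tower {M : Type} [Field M] [NumberField M] [Algebra K M] [Algebra M F]
    [IsScalarTower K M F] (w : HeightOneSpectrum (𝓞 F)) : und0 K (und0 M w) = und0 K w := by
  apply HeightOneSpectrum.ext
  show (w.asIdeal.under (𝓞 M)).under (𝓞 K) = w.asIdeal.under (𝓞 K)
  exact Ideal.under_under _

/-- existence of a Frobenius element -/
lemma exists_frob [IsGalois K F] (w : HeightOneSpectrum (𝓞 F)) : ∃ φ : Gal(F/K), ∀ x : 𝓞 F,
    φ • x - x ^ Nat.card (𝓞 K ⧸ w.asIdeal.under (𝓞 K)) ∈ w.asIdeal := by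
  have : Finite (𝓞 F ⧸ w.asIdeal) := Ideal.finiteQuotientOfFreeOfNeBot _ w.ne_bot
  have hwp : w.asIdeal.IsPrime := w.isPrime
  obtain ⟨φ, hφ⟩ := IsArithFrobAt.exists_of_isInvariant (𝓞 K) Gal(F/K) w.asIdeal
  exact ⟨φ, hφ⟩

theorem loc_id [IsGalois K F] (C : Subgroup Gal(F/K)) (w : HeightOneSpectrum (𝓞 F))
    {φ : Gal(F/K)} (hφ : ∀ x : 𝓞 F,
      φ • x - x ^ Nat.card (𝓞 K ⧸ w.asIdeal.under (𝓞 K)) ∈ w.asIdeal) :
    (∀ u : HeightOneSpectrum (𝓞 (IntermediateField.fixedField C)), und0 K u = und0 K w →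
      0 < rd K u ∧ nK u = nK (und0 K w) ^ rd K u) ∧
    ∀ m : ℕ, ∑ i : w.asIdeal.inertia Gal(F/K), fixN C (φ ^ (m + 1) * i) =
      Nat.card (w.asIdeal.inertia Gal(F/K)) *
        cf K (IntermediateField.fixedField C) (und0 K w, m) := by
  set M := IntermediateField.fixedField C with hM
  have hfin : Finite (𝓞 F ⧸ w.asIdeal) := Ideal.finiteQuotientOfFreeOfNeBot _ w.ne_bot
  have hwp : w.asIdeal.IsPrime := w.isPrime
  set v := und0 K w with hv
  have hinj : Function.Injective fun u : {u : HeightOneSpectrum (𝓞 M) // und0 K u = v} =>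
      u.1.asIdeal := fun a b h => Subtype.ext (HeightOneSpectrum.ext h)
  set U : Finset (Ideal (𝓞 M)) := Finset.univ.image
    (fun u : {u : HeightOneSpectrum (𝓞 M) // und0 K u = v} => u.1.asIdeal) with hU
  have hU' : ∀ u, u ∈ U ↔ u.IsPrime ∧ u.under (𝓞 K) = w.asIdeal.under (𝓞 K) := by
    intro u
    rw [hU, Finset.mem_image]
    constructor
    · rintro ⟨u', -, rfl⟩
      exact ⟨u'.1.isPrime, congrArg HeightOneSpectrum.asIdeal u'.2⟩
    · rintro ⟨h1, h2⟩
      have h3 : u ≠ ⊥ := by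
        rintro rfl
        apply (und0 K w).ne_bot
        show w.asIdeal.under (𝓞 K) = ⊥
        rw [← h2, Ideal.under_bot]
      exact ⟨⟨⟨u, h1, h3⟩, HeightOneSpectrum.ext h2⟩, Finset.mem_univ _, rfl⟩
  obtain ⟨h1, h2⟩ := loc_main (G := Gal(F/K)) (H := C) (R := 𝓞 K) (T := 𝓞 M) (S := 𝓞 F)
    (Q := w.asIdeal) hφ hU'
  have hcv : Nat.card (𝓞 K ⧸ w.asIdeal.under (𝓞 K)) = nK v := card_nm v
  constructor
  · intro u hu
    have hmem : u.asIdeal ∈ U := (hU' _).2 ⟨u.isPrime, congrArg HeightOneSpectrum.asIdeal hu⟩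
    obtain ⟨h3, h4⟩ := h1 _ hmem
    refine ⟨h3, ?_⟩
    rw [hcv, card_nm u] at h4
    exact h4
  · intro m
    rw [h2 (m + 1)]
    congr 1
    rw [hU, Finset.sum_image fun a _ b _ h => hinj h]
    rfl

theorem rdOk [IsGalois K F] (C : Subgroup Gal(F/K)) : RdOk K (IntermediateField.fixedField C) := by
  have key : ∀ u : HeightOneSpectrum (𝓞 (IntermediateField.fixedField C)),
      0 < rd K u ∧ nK u = nK (und0 K u) ^ rd K u := by
    intro u
    obtain ⟨w, hw⟩ := exists_above (F := F) u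
    obtain ⟨φ, hφ⟩ := exists_frob (K := K) w
    have h1 : und0 K u = und0 K w := by rw [← hw, und0_tower]
    have := (loc_id C w hφ).1 u h1
    rwa [← h1] at this
  exact ⟨fun u => (key u).1, fun u => (key u).2⟩

end

end Pool.Agent.K7.H70.SE
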