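import Pool.Agent.K7.H70.SE.Main

/-!
# The data of the subfields of a Galois extension of 2-power degree of `ℚ(ζ₉)`
-/

set_option autoImplicit false
set_option linter.unusedSectionVars false

open Complex NumberField IsDedekindDomain
open scoped PeriodPair nonZeroDivisors

namespace Pool.Agent.K7.H70.SE

open Pool.Agent.K7.H70.SM
open Pool.Agent.K7.H56
open Pool.Agent.K7.H56.P
open Pool.Agent.R430
open Pool.Agent.Y696 Pool.Agent.W192.HK Pool.Agent.TH936.CM H667R3
open Pool.Agent.TH936.PU
open Pool.Agent.K7.H70.AS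
open Pool.Agent.K7.H56.M (unr2_down)
open Pool.Agent.TH841.SH.D (Pt act)

section
variable {M K : Type} [Field M] [NumberField M] [IsCyclotomicExtension {9} ℚ M] [Field K]
  [NumberField K] [Algebra M K] [IsGalois M K]

theorem fin9 (hr : ∃ r : ℕ, Module.finrank M K = 2 ^ r) (hG : Gd M K)
    {k : Type} [Field k] [NumberField k] [Algebra k K] : Finite (E27 k).toAffine.Point := by
  obtain ⟨r, hr⟩ := hr
  have hGK : Gz K := (gz9 M).step hr hG
  have h1 := hGK.pts_odd.1
  have e1 : (E0 k).baseChange K = E0 K := E0_map _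
  have e2 : (E0 k).baseChange k = E0 k := E0_map _
  have hfin : Finite (Pt (E0 k) K) := by
    change Finite ((E0 k).baseChange K).toAffine.Point
    rw [e1]
    exact h1
  have hfin0 : Finite (Pt (E0 k) k) := Finite.of_injective _ (act_inj (E0 k) (Algebra.ofId k K))
  have : Finite ((E0 k).baseChange k).toAffine.Point := hfin0
  rw [e2] at this
  exact this

/-- **every subfield** -/
theorem good9 (hb : Base9) (hr : ∃ r : ℕ, Module.finrank M K = 2 ^ r) (hG : Gd M K)
    {k : Type} [Field k] [NumberField k] [Algebra k K] : GoodG k := by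
  obtain ⟨r, hr⟩ := hr
  have hGK : Gz K := (gz9 M).step hr hG
  have hU : Unr2 K := hGK.two
  have hNG : NG K := ng_nine hr
  have h3 : Add3 k := add3_of_ng (ng_small hNG)
  by_cases hns : ∀ x : k, x ^ 2 ≠ -3
  · obtain ⟨ω, hω⟩ := om9 M
    set a : K := algebraMap M K (2 * ω + 1) with haK
    have ha : a ^ 2 = -3 := by
      rw [haK, ← map_pow]
      have : (2 * ω + 1) ^ 2 = -3 := by linear_combination 4 * hω
      rw [this, map_neg, map_ofNat]
    set T : IntermediateField k K := IntermediateField.adjoin k {a} with hT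
    have haT : a ∈ T := IntermediateField.mem_adjoin_simple_self k a
    have haT' : (⟨a, haT⟩ : T) ^ 2 = -3 := Subtype.ext (by
      show a ^ 2 = algebraMap T K (-3)
      rw [map_neg, map_ofNat]
      exact ha)
    obtain ⟨ι'⟩ := exists_iota (N := T) ⟨((⟨a, haT⟩ : T) - 1) / 2, by
      field_simp
      linear_combination haT'⟩
    set ι : Pool.Agent.Y688.RR →+* 𝓞 T :=
      ι'.comp (RingEquiv.subringCongr RR_eis : Pool.Agent.Y688.RR →+* eis) with hι
    obtain ⟨d, hd, hB⟩ := base_om hb hr hU hG haT' ι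
    obtain ⟨f, hf⟩ := exists_VV ι hd (unr2_down (F := T) (K := K) hU)
    have h2 : Module.finrank k T = 2 := by
      have hirr : Irreducible (Polynomial.X ^ 2 - Polynomial.C (-3 : k)) := by
        rw [X_pow_sub_C_irreducible_iff_of_prime Nat.prime_two]
        exact fun b => hns b
      have hmin : minpoly k a = Polynomial.X ^ 2 - Polynomial.C (-3 : k) := by
        refine (minpoly.eq_of_irreducible_of_monic hirr ?_ (Polynomial.monic_X_pow_sub_C _ two_ne_zero)).symm
        rw [map_sub, map_pow, Polynomial.aeval_X, Polynomial.aeval_C, map_neg, map_ofNat, ha, sub_self]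
      have hint : IsIntegral k a := by
        refine ⟨Polynomial.X ^ 2 - Polynomial.C (-3 : k), Polynomial.monic_X_pow_sub_C _ two_ne_zero, ?_⟩
        rw [Polynomial.eval₂_sub, Polynomial.eval₂_pow, Polynomial.eval₂_X, Polynomial.eval₂_C, map_neg,
          map_ofNat, ha, sub_self]
      have h3 := IntermediateField.adjoin.finrank hint
      rw [hmin, Polynomial.natDegree_X_pow_sub_C] at h3
      exact h3
    obtain ⟨τ, Q⟩ := mkQe (K₀ := k) h2 h3 hns (iE ι)
    exact ⟨fun v h => ty_small Q v h, h3, _, arz_small ι hf (ne_of_base hB hf) h2 h3 hns⟩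
  · push Not at hns
    obtain ⟨a, ha⟩ := hns
    obtain ⟨ι'⟩ := exists_iota (N := k) ⟨(a - 1) / 2, by
      field_simp
      linear_combination ha⟩
    set ι : Pool.Agent.Y688.RR →+* 𝓞 k :=
      ι'.comp (RingEquiv.subringCongr RR_eis : Pool.Agent.Y688.RR →+* eis) with hι
    obtain ⟨d, hd, hB⟩ := base_om hb hr hU hG ha ι
    obtain ⟨f, hf⟩ := exists_VV ι hd (unr2_down (F := k) (K := K) hU)
    exact ⟨fun v h => Or.inl (ty_big (iE ι) v h), h3, _, arz_big ι h3 hf (ne_of_base hB hf)⟩

end

end Pool.Agent.K7.H70.SE
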