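import Pool.Agent.K7.H70.EQ.Pl
import Pool.Agent.K7.H70.SM.F

/-!
# The data of the subfields of a Galois extension of 2-power degree
-/

set_option autoImplicit false

namespace Pool.Agent.K7.H70.SE

open Pool.Agent.K7.H70.EQ

open NumberField IsDedekindDomain
open Pool.Agent.K7.H56
open Pool.Agent.R430
open Pool.Agent.Y696
open Pool.Agent.K7.H70.AS
open Pool.Agent.W192.HK Pool.Agent.TH936.CM Pool.Agent.TH936.PU
open Pool.Agent.W189.NF (aV eV redMap Ov card_res finite_res)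
open scoped Classical

/-- the numbers of points and the L-function of `E` over the field `k` -/
structure GoodG (k : Type) [Field k] [NumberField k] : Prop where
  ty : ∀ v : HeightOneSpectrum (𝓞 k), (3 : 𝓞 k) ∉ v.asIdeal → TyA v ∨ TyB v
  bad : ∀ v : HeightOneSpectrum (𝓞 k), (3 : 𝓞 k) ∈ v.asIdeal →
    aV (E0 k) v = 0 ∧ eV (E0 k) v = 0
  an : ∃ Lf : ℂ → ℂ, Pool.Agent.K7.H70.SM.ARZ k Lf

section
variable {K : Type} [Field K] [NumberField K]

lemma ty_big (ι : eis →+* 𝓞 K) (v : HeightOneSpectrum (𝓞 K)) (h3 : (3 : 𝓞 K) ∉ v.asIdeal) :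
    TyA v := by
  obtain ⟨f, hf, hN⟩ := deg_base ι v
  obtain ⟨b1, b2, b3⟩ := pw_valN ι h3
  refine ⟨bel ι v, f, by rw [mem_bel, map_ofNat]; exact h3, hf, hN, ?_, b2⟩
  rw [b1]
  unfold Pool.Agent.Y696.pw
  rw [fd_of hN]

variable {K₀ : Type} [Field K₀] [NumberField K₀] [Algebra K₀ K] {ι : eis →+* 𝓞 K} {τ : K ≃ₐ[K₀] K}

lemma ty_small (Q : Pool.Agent.K7.H70.SM.Qe K₀ ι τ) (v : HeightOneSpectrum (𝓞 K₀)) (h3 : (3 : 𝓞 K₀) ∉ v.asIdeal) :
    TyA v ∨ TyB v := by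
  have hζ : (ι omr) ^ 2 + ι omr + 1 = 0 := by
    rw [← map_pow, ← map_add, ← map_one ι, ← map_add, omr_sq, map_zero]
  have hτ : τ ((ι omr : 𝓞 K) : K) = ((ι omr : 𝓞 K) : K) ^ 2 := by
    have h5 := Q.cj omr
    rw [cj_omr, map_pow] at h5
    have h6 := congrArg (fun z : 𝓞 K => (z : K)) h5
    exact h6
  have hw3 : ∀ w : HeightOneSpectrum (𝓞 K), w.asIdeal.LiesOver v.asIdeal →
      (3 : 𝓞 K) ∉ w.asIdeal := by
    intro w hlo h5
    apply h3
    rw [hlo.over, Ideal.under_def, Ideal.mem_comap, map_ofNat]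
    exact h5
  have hcv : Nat.card (𝓞 K₀ ⧸ v.asIdeal) = nK v := card_nm v
  rcases Pool.Agent.Y900.QC.jobC Q.two (ι omr) hζ τ hτ v h3 with
    ⟨-, w, w', hne, hww, hlo, hn, hn'⟩ | ⟨hq, w, hww, hlo, hn⟩
  · left
    have hwv : w.asIdeal.LiesOver v.asIdeal := (hlo w).2 (Or.inl rfl)
    have hnw : nK v = nK w := by rw [← card_nm, ← card_nm, hn]
    have hw3' := hw3 w hwv
    obtain ⟨a1, a2⟩ := aV_eq h3 hw3' hnw
    obtain ⟨P, f, b1, b2, b3, b4, b5⟩ := ty_big ι w hw3'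
    exact ⟨P, f, b1, b2, by rw [hnw, b3], by rw [a1, b4], by rw [a2, b5, hnw]⟩
  · right
    have hwv : w.asIdeal.LiesOver v.asIdeal := (hlo w).2 rfl
    have hw3' := hw3 w hwv
    rw [hcv] at hq
    obtain ⟨a1, a2⟩ := aV_inert h3 hq
    obtain ⟨f, hf, hN⟩ := deg_base ι w
    have hnw : nK w = nK v ^ 2 := by rw [← card_nm, hn, hcv]
    exact ⟨hq, ⟨bel ι w, f, by rw [mem_bel, map_ofNat]; exact hw3', hf, Q.bel_cj hww,
      by rw [← hnw, hN]; rfl⟩, a1, a2⟩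

end

end Pool.Agent.K7.H70.SE
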