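import Pool.Agent.K7.H70.SE.LS
import Pool.Agent.K7.H70.EQ.Inst

/-!
# The logarithm of the Euler product over a field in terms of the primes of a subfield
-/

set_option autoImplicit false

namespace Pool.Agent.K7.H70.SE

open Pool.Agent.K7.H70.EQ

open NumberField IsDedekindDomain
open Pool.Agent.Y696
open Pool.Agent.W189.NF (aV eV redMap Ov card_res finite_res)
open Pool.Agent.H921R2.TatePole (nm two_le_nm nm_summable)
open scoped Classical

lemma pow_sum_eq {a b c d : ℂ} (h1 : a + b = c + d) (h2 : a * b = c * d) (n : ℕ) :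
    a ^ n + b ^ n = c ^ n + d ^ n := by
  induction n using Nat.twoStepInduction with
  | zero => simp
  | one => simpa using h1
  | more n ih1 ih2 =>
    have e1 : a ^ (n + 2) + b ^ (n + 2) = (a + b) * (a ^ (n + 1) + b ^ (n + 1)) -
      a * b * (a ^ n + b ^ n) := by ring
    have e2 : c ^ (n + 2) + d ^ (n + 2) = (c + d) * (c ^ (n + 1) + d ^ (n + 1)) -
      c * d * (c ^ n + d ^ n) := by ring
    rw [e1, e2, h1, h2, ih1, ih2]

section
variable {K M : Type} [Field K] [NumberField K] [Field M] [NumberField M] [Algebra K M]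

/-- the residue degree -/
noncomputable def rd (K : Type) [Field K] [NumberField K] [Algebra K M]
    (u : HeightOneSpectrum (𝓞 M)) : ℕ := rdeg (𝓞 K) u.asIdeal

/-- the norms of the primes of the field and of the subfield -/
structure RdOk (K M : Type) [Field K] [NumberField K] [Field M] [NumberField M] [Algebra K M] :
    Prop where
  pos : ∀ u : HeightOneSpectrum (𝓞 M), 0 < rd K u
  norm : ∀ u : HeightOneSpectrum (𝓞 M), nK u = nK (und0 K u) ^ rd K u

lemma mem_und0 {u : HeightOneSpectrum (𝓞 M)} :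
    (3 : 𝓞 K) ∈ (und0 K u).asIdeal ↔ (3 : 𝓞 M) ∈ u.asIdeal := by
  show (3 : 𝓞 K) ∈ u.asIdeal.under (𝓞 K) ↔ _
  rw [Ideal.under_def, Ideal.mem_comap, map_ofNat]

lemma lt_up (hK : GoodG K) (hM : GoodG M) (R : RdOk K M) (u : HeightOneSpectrum (𝓞 M)) (j : ℕ)
    (s : ℂ) : lt hM (u, j) s = (rd K u : ℂ) * lt hK (und0 K u, rd K u * (j + 1) - 1) s := by
  have hp := R.pos u
  have hN := R.norm u
  have hk0 : (rd K u : ℂ) ≠ 0 := Nat.cast_ne_zero.2 hp.ne'
  have hj0 : ((j : ℂ) + 1) ≠ 0 := by exact_mod_cast Nat.succ_ne_zero j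
  have hidx : rd K u * (j + 1) - 1 + 1 = rd K u * (j + 1) :=
    Nat.sub_add_cancel (Nat.mul_pos hp (Nat.succ_pos j))
  have hidx' : ((rd K u * (j + 1) - 1 : ℕ) : ℂ) + 1 = (rd K u : ℂ) * ((j : ℂ) + 1) := by
    have := congrArg (fun n : ℕ => (n : ℂ)) hidx
    push_cast at this
    exact this
  have hps : ps hM u (j + 1) = ps hK (und0 K u) (rd K u * (j + 1)) := by
    by_cases h3 : (3 : 𝓞 M) ∈ u.asIdeal
    · have h3' : (3 : 𝓞 K) ∈ (und0 K u).asIdeal := mem_und0.2 h3
      unfold ps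
      rw [rt_bad hM h3, rt_bad hK h3', map_zero, zero_pow (Nat.succ_ne_zero j),
        zero_pow (Nat.mul_pos hp (Nat.succ_pos j)).ne']
    · have h3' : (3 : 𝓞 K) ∉ (und0 K u).asIdeal := fun h => h3 (mem_und0.1 h)
      obtain ⟨a1, a2⟩ := (rt_spec hK h3').2.2.2 M u (hM.ty u h3) (rd K u) hp hN
      rw [rt_a hM u] at a1
      have a3 : rt hM u * (starRingEnd ℂ) (rt hM u) =
          rt hK (und0 K u) ^ rd K u * (starRingEnd ℂ) (rt hK (und0 K u)) ^ rd K u := by
        rw [(rt_spec hM h3).1, ← mul_pow, (rt_spec hK h3').1, hN]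
        push_cast
        rfl
      unfold ps
      rw [pow_sum_eq a1 a3, ← pow_mul, ← pow_mul]
  have hx : ((nK u : ℂ) ^ (-s)) = ((nK (und0 K u) : ℂ) ^ (-s)) ^ rd K u := by
    rw [hN]
    push_cast
    rw [← Complex.natCast_cpow_natCast_mul, Complex.cpow_nat_mul]
  unfold lt
  simp only
  rw [hidx, hidx', hps, hx, ← pow_mul]
  field_simp

/-- the coefficient -/
noncomputable def cf (K M : Type) [Field K] [NumberField K] [Field M] [NumberField M] [Algebra K M]
    [∀ v : HeightOneSpectrum (𝓞 K), Fintype {u : HeightOneSpectrum (𝓞 M) // und0 K u = v}]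
    (p : HeightOneSpectrum (𝓞 K) × ℕ) : ℕ :=
  ∑ u : {u : HeightOneSpectrum (𝓞 M) // und0 K u = p.1}, if rd K u.1 ∣ p.2 + 1 then rd K u.1 else 0

/-- the logarithm over the field as a sum over the primes of the subfield -/
theorem sum_up [∀ v : HeightOneSpectrum (𝓞 K), Fintype {u : HeightOneSpectrum (𝓞 M) // und0 K u = v}]
    (hK : GoodG K) (hM : GoodG M) (R : RdOk K M) {s : ℂ} (hs : s ∈ HH) :
    HasSum (fun p : HeightOneSpectrum (𝓞 K) × ℕ => (cf K M p : ℂ) * lt hK p s)
      (∑' p, lt hM p s) := by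
  have h1 : HasSum (fun p => lt hM p s) (∑' p, lt hM p s) := by
    have := ls_summable hM (c := fun _ => 1) (B := 1) (fun p => by simp) hs
    simp only [one_mul] at this
    exact this.hasSum
  -- the function on the pairs
  let g : HeightOneSpectrum (𝓞 M) × ℕ → ℂ := fun x =>
    if rd K x.1 ∣ x.2 + 1 then (rd K x.1 : ℂ) * lt hK (und0 K x.1, x.2) s else 0
  let i : HeightOneSpectrum (𝓞 M) × ℕ → HeightOneSpectrum (𝓞 M) × ℕ := fun x =>
    (x.1, rd K x.1 * (x.2 + 1) - 1)
  have hi : Function.Injective i := by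
    rintro ⟨u, j⟩ ⟨u', j'⟩ h
    obtain ⟨h1, h2⟩ := Prod.mk.inj h
    simp only at h1 h2
    subst h1
    have hp := R.pos u
    have e1 : rd K u * (j + 1) - 1 + 1 = rd K u * (j + 1) :=
      Nat.sub_add_cancel (Nat.mul_pos hp (Nat.succ_pos j))
    have e2 : rd K u * (j' + 1) - 1 + 1 = rd K u * (j' + 1) :=
      Nat.sub_add_cancel (Nat.mul_pos hp (Nat.succ_pos j'))
    rw [h2, e2] at e1
    have := Nat.eq_of_mul_eq_mul_left hp e1
    rw [Nat.succ_injective this]
  have hgi : g ∘ i = fun p => lt hM p s := by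
    funext ⟨u, j⟩
    have hp := R.pos u
    have e1 : rd K u * (j + 1) - 1 + 1 = rd K u * (j + 1) :=
      Nat.sub_add_cancel (Nat.mul_pos hp (Nat.succ_pos j))
    show (if rd K u ∣ rd K u * (j + 1) - 1 + 1 then
      (rd K u : ℂ) * lt hK (und0 K u, rd K u * (j + 1) - 1) s else 0) = _
    rw [e1, if_pos (Dvd.intro _ rfl), lt_up hK hM R]
  have h2 : HasSum g (∑' p, lt hM p s) := by
    refine (hi.hasSum_iff ?_).1 (by rw [hgi]; exact h1)
    rintro ⟨u, m⟩ hx
    have hp := R.pos u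
    show (if rd K u ∣ m + 1 then (rd K u : ℂ) * lt hK (und0 K u, m) s else 0) = 0
    refine if_neg ?_
    rintro ⟨j, hj⟩
    apply hx
    have hj0 : j ≠ 0 := by
      rintro rfl
      rw [mul_zero] at hj
      omega
    obtain ⟨j', rfl⟩ := Nat.exists_eq_succ_of_ne_zero hj0
    refine ⟨(u, j'), ?_⟩
    show (u, rd K u * (j' + 1) - 1) = (u, m)
    rw [Nat.succ_eq_add_one] at hj
    rw [← hj, Nat.add_sub_cancel]
  let e : (Σ p : HeightOneSpectrum (𝓞 K) × ℕ,
      {u : HeightOneSpectrum (𝓞 M) // und0 K u = p.1}) ≃ HeightOneSpectrum (𝓞 M) × ℕ :=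
    { toFun := fun x => (x.2.1, x.1.2)
      invFun := fun y => ⟨(und0 K y.1, y.2), ⟨y.1, rfl⟩⟩
      left_inv := by
        rintro ⟨⟨v, m⟩, ⟨u, hu⟩⟩
        simp only at hu
        subst hu
        rfl
      right_inv := fun y => rfl }
  have h3 := (e.hasSum_iff (f := g)).2 h2
  refine h3.sigma fun p => ?_
  have h4 : ((cf K M p : ℂ) * lt hK p s) =
      ∑ u : {u : HeightOneSpectrum (𝓞 M) // und0 K u = p.1}, (g ∘ e) ⟨p, u⟩ := by
    unfold cf
    push_cast
    rw [Finset.sum_mul]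
    refine Finset.sum_congr rfl fun u _ => ?_
    show _ = (if rd K u.1 ∣ p.2 + 1 then (rd K u.1 : ℂ) * lt hK (und0 K u.1, p.2) s else 0)
    rw [u.2]
    split_ifs
    · rfl
    · rw [zero_mul]
  rw [h4]
  exact hasSum_fintype _

end

section
variable {K F : Type} [Field K] [NumberField K] [Field F] [NumberField F] [Algebra K F]

/-- there is a prime above -/
lemma exists_above (v : HeightOneSpectrum (𝓞 K)) : ∃ w : HeightOneSpectrum (𝓞 F), und0 K w = v := by
  have hp : v.asIdeal.IsPrime := v.isPrime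
  obtain ⟨⟨Q', hp', hlo⟩⟩ := Ideal.nonempty_primesOver (R := 𝓞 K) (S := 𝓞 F) v.asIdeal
  refine ⟨⟨Q', hp', ?_⟩, HeightOneSpectrum.ext hlo.over.symm⟩
  rintro rfl
  apply v.ne_bot
  rw [hlo.over, Ideal.under_bot]

/-- the primes above a prime are finite in number -/
instance finite_fib (v : HeightOneSpectrum (𝓞 K)) :
    Finite {u : HeightOneSpectrum (𝓞 F) // und0 K u = v} := by
  have h1 : (v.asIdeal.primesOver (𝓞 F)).Finite := by
    have : v.asIdeal.IsMaximal := v.isPrime.isMaximal v.ne_bot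
    exact IsDedekindDomain.primesOver_finite v.asIdeal (𝓞 F)
  have : Finite (v.asIdeal.primesOver (𝓞 F)) := h1
  let j : {u : HeightOneSpectrum (𝓞 F) // und0 K u = v} → v.asIdeal.primesOver (𝓞 F) := fun u =>
    ⟨u.1.asIdeal, u.1.isPrime, ⟨by have := u.2; exact (congrArg HeightOneSpectrum.asIdeal this).symm⟩⟩
  refine Finite.of_injective j fun a b h => ?_
  apply Subtype.ext
  apply HeightOneSpectrum.ext
  exact congrArg Subtype.val h

noncomputable instance fintype_fib (v : HeightOneSpectrum (𝓞 K)) :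
    Fintype {u : HeightOneSpectrum (𝓞 F) // und0 K u = v} := Fintype.ofFinite _

end

end Pool.Agent.K7.H70.SE
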