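import Pool.Agent.K7.H70.SE.Fd
import Pool.Agent.K7.H70.EQ.Ana
import Pool.Agent.K7.H70.EQ.Det
import Pool.Agent.K7.H70.EQ.Avg

/-!
# The logarithms of the Euler products
-/

set_option autoImplicit false

namespace Pool.Agent.K7.H70.SE

open Pool.Agent.K7.H70.EQ

open NumberField IsDedekindDomain
open Pool.Agent.Y696
open Pool.Agent.W189.NF (aV eV redMap Ov card_res finite_res)
open Pool.Agent.H921R2.TatePole (nm two_le_nm nm_summable)
open scoped Classical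

section
variable {k : Type} [Field k] [NumberField k]

/-- the root of the local polynomial -/
noncomputable def rt (h : GoodG k) (v : HeightOneSpectrum (𝓞 k)) : ℂ :=
  if h3 : (3 : 𝓞 k) ∈ v.asIdeal then 0 else (exists_root (h.ty v h3)).choose

lemma rt_bad (h : GoodG k) {v : HeightOneSpectrum (𝓞 k)} (h3 : (3 : 𝓞 k) ∈ v.asIdeal) :
    rt h v = 0 := dif_pos h3

lemma rt_spec (h : GoodG k) {v : HeightOneSpectrum (𝓞 k)} (h3 : (3 : 𝓞 k) ∉ v.asIdeal) :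
    rt h v * (starRingEnd ℂ) (rt h v) = (nK v : ℂ) ∧
      ((aV (E0 k) v : ℤ) : ℂ) = rt h v + (starRingEnd ℂ) (rt h v) ∧
      ((eV (E0 k) v : ℤ) : ℂ) = (nK v : ℂ) ∧
      ∀ (M : Type) [Field M] [NumberField M] (u : HeightOneSpectrum (𝓞 M)), TyA u ∨ TyB u →
        ∀ j : ℕ, 0 < j → nK u = nK v ^ j →
        ((aV (E0 M) u : ℤ) : ℂ) = rt h v ^ j + (starRingEnd ℂ) (rt h v) ^ j ∧
          ((eV (E0 M) u : ℤ) : ℂ) = (nK u : ℂ) := by
  have e : rt h v = (exists_root (h.ty v h3)).choose := dif_neg h3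
  rw [e]
  exact (exists_root (h.ty v h3)).choose_spec

lemma rt_a (h : GoodG k) (v : HeightOneSpectrum (𝓞 k)) :
    ((aV (E0 k) v : ℤ) : ℂ) = rt h v + (starRingEnd ℂ) (rt h v) := by
  by_cases h3 : (3 : 𝓞 k) ∈ v.asIdeal
  · rw [rt_bad h h3, (h.bad v h3).1]
    simp
  · exact (rt_spec h h3).2.1

lemma rt_e (h : GoodG k) (v : HeightOneSpectrum (𝓞 k)) :
    ((eV (E0 k) v : ℤ) : ℂ) = rt h v * (starRingEnd ℂ) (rt h v) := by
  by_cases h3 : (3 : 𝓞 k) ∈ v.asIdeal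
  · rw [rt_bad h h3, (h.bad v h3).2]
    simp
  · rw [(rt_spec h h3).2.2.1, (rt_spec h h3).1]

lemma rt_norm (h : GoodG k) (v : HeightOneSpectrum (𝓞 k)) : ‖rt h v‖ ≤ Real.sqrt (nK v) := by
  by_cases h3 : (3 : 𝓞 k) ∈ v.asIdeal
  · rw [rt_bad h h3, norm_zero]
    exact Real.sqrt_nonneg _
  · have h1 := (rt_spec h h3).1
    apply Real.le_sqrt_of_sq_le
    have h3 : ‖rt h v‖ ^ 2 = nK v := by
      have := Complex.mul_conj (rt h v)
      rw [h1] at this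
      rw [← Complex.normSq_eq_norm_sq]
      exact_mod_cast this.symm
    exact h3.le

lemma hbd (h : GoodG k) (v : HeightOneSpectrum (𝓞 k)) :
    HBd (aV (E0 k) v) (eV (E0 k) v) (nm v) := by
  by_cases h3 : (3 : 𝓞 k) ∈ v.asIdeal
  · exact Or.inl (h.bad v h3)
  · exact Or.inr ⟨rt h v, rt_a h v, rt_e h v, (rt_spec h h3).1⟩

/-- the sums of the powers of the roots -/
noncomputable def ps (h : GoodG k) (v : HeightOneSpectrum (𝓞 k)) (j : ℕ) : ℂ :=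
  rt h v ^ j + (starRingEnd ℂ) (rt h v) ^ j

/-- the terms of the logarithm -/
noncomputable def lt (h : GoodG k) (p : HeightOneSpectrum (𝓞 k) × ℕ) (s : ℂ) : ℂ :=
  ps h p.1 (p.2 + 1) * ((nK p.1 : ℂ) ^ (-s)) ^ (p.2 + 1) / (p.2 + 1)

lemma q_norm (v : HeightOneSpectrum (𝓞 k)) (s : ℂ) :
    ‖(nK v : ℂ) ^ (-s)‖ = (nK v : ℝ) ^ (-s.re) := by
  rw [Complex.norm_natCast_cpow_of_pos (lt_of_lt_of_le two_pos (two_le_nm v)), Complex.neg_re]

lemma rt_x (h : GoodG k) (v : HeightOneSpectrum (𝓞 k)) {σ : ℝ} {s : ℂ} (hs : σ ≤ s.re) :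
    ‖rt h v‖ * ‖(nK v : ℂ) ^ (-s)‖ ≤ (nK v : ℝ) ^ (-(σ - 1 / 2)) := by
  have hq2 : (2 : ℝ) ≤ nK v := by exact_mod_cast two_le_nm v
  have hq0 : (0 : ℝ) < nK v := by linarith
  rw [q_norm]
  calc ‖rt h v‖ * (nK v : ℝ) ^ (-s.re) ≤ Real.sqrt (nK v) * (nK v : ℝ) ^ (-σ) := by
        refine mul_le_mul (rt_norm h v) (Real.rpow_le_rpow_of_exponent_le (by linarith)
          (by linarith)) (by positivity) (Real.sqrt_nonneg _)
    _ = (nK v : ℝ) ^ (-(σ - 1 / 2)) := by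
        rw [Real.sqrt_eq_rpow, ← Real.rpow_add hq0]
        congr 1
        ring

lemma y_le (v : HeightOneSpectrum (𝓞 k)) {σ : ℝ} (hσ : 3 / 2 ≤ σ) :
    (nK v : ℝ) ^ (-(σ - 1 / 2)) ≤ 1 / 2 := by
  have hq2 : (2 : ℝ) ≤ nK v := by exact_mod_cast two_le_nm v
  calc (nK v : ℝ) ^ (-(σ - 1 / 2)) ≤ (nK v : ℝ) ^ (-1 : ℝ) :=
        Real.rpow_le_rpow_of_exponent_le (by linarith) (by linarith)
    _ = (nK v : ℝ)⁻¹ := Real.rpow_neg_one _
    _ ≤ 2⁻¹ := inv_anti₀ (by norm_num) hq2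
    _ = 1 / 2 := by norm_num

lemma lt_le (h : GoodG k) (p : HeightOneSpectrum (𝓞 k) × ℕ) {σ : ℝ} (hσ : 3 / 2 ≤ σ) {s : ℂ}
    (hs : σ ≤ s.re) :
    ‖lt h p s‖ ≤ 2 * ((nK p.1 : ℝ) ^ (-(σ - 1 / 2)) * (1 / 2) ^ p.2) := by
  obtain ⟨v, m⟩ := p
  simp only
  have h1 := rt_x h v hs
  have h2 := y_le v hσ
  set y := (nK v : ℝ) ^ (-(σ - 1 / 2)) with hy
  have hy0 : 0 ≤ y := by positivity
  set x := (nK v : ℂ) ^ (-s) with hx
  have h3 : ‖lt h (v, m) s‖ ≤ 2 * (‖rt h v‖ * ‖x‖) ^ (m + 1) := by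
    unfold lt ps
    simp only
    rw [norm_div, norm_mul, norm_pow]
    have h4 : ‖rt h v ^ (m + 1) + (starRingEnd ℂ) (rt h v) ^ (m + 1)‖ ≤ 2 * ‖rt h v‖ ^ (m + 1) := by
      refine (norm_add_le _ _).trans (le_of_eq ?_)
      rw [norm_pow, norm_pow, RCLike.norm_conj]
      ring
    have h5 : (1 : ℝ) ≤ ‖(m : ℂ) + 1‖ := by
      have : ((m : ℂ) + 1) = ((m + 1 : ℕ) : ℂ) := by push_cast; rfl
      rw [this, Complex.norm_natCast]
      exact_mod_cast Nat.le_add_left 1 m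
    refine (div_le_self (by positivity) h5).trans ?_
    rw [← hx]
    calc _ ≤ (2 * ‖rt h v‖ ^ (m + 1)) * ‖x‖ ^ (m + 1) := by gcongr
      _ = 2 * (‖rt h v‖ * ‖x‖) ^ (m + 1) := by rw [mul_pow]; ring
  refine h3.trans ?_
  calc 2 * (‖rt h v‖ * ‖x‖) ^ (m + 1) ≤ 2 * y ^ (m + 1) := by gcongr
    _ = 2 * (y * y ^ m) := by rw [pow_succ']
    _ ≤ 2 * (y * (1 / 2) ^ m) := by gcongr

lemma bd_summable {σ : ℝ} (hσ : 3 / 2 < σ) : Summable fun p : HeightOneSpectrum (𝓞 k) × ℕ =>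
    2 * ((nK p.1 : ℝ) ^ (-(σ - 1 / 2)) * (1 / 2) ^ p.2) := by
  have g2 := summable_geometric_of_lt_one (r := (1 / 2 : ℝ)) (by norm_num) (by norm_num)
  have h1 := ((nm_summable (K := k) (x := σ - 1 / 2) (by linarith))).mul_of_nonneg g2
      (fun v => by positivity) (fun n => by positivity)
  exact h1.mul_left 2

lemma mem_HH_iff {s : ℂ} : s ∈ HH ↔ 3 / 2 < s.re := Iff.rfl

lemma ls_summable (h : GoodG k) {c : HeightOneSpectrum (𝓞 k) × ℕ → ℂ} {B : ℝ}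
    (hc : ∀ p, ‖c p‖ ≤ B) {s : ℂ} (hs : s ∈ HH) : Summable fun p => c p * lt h p s := by
  refine Summable.of_norm_bounded ((bd_summable (k := k) (mem_HH_iff.1 hs)).mul_left B) fun p => ?_
  rw [norm_mul]
  exact mul_le_mul (hc p) (lt_le h p (mem_HH_iff.1 hs).le le_rfl) (norm_nonneg _)
    ((norm_nonneg _).trans (hc p))

lemma lt_cont (h : GoodG k) (p : HeightOneSpectrum (𝓞 k) × ℕ) : Continuous fun s => lt h p s := by
  have hq : (nK p.1 : ℂ) ≠ 0 :=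
    Nat.cast_ne_zero.2 (lt_of_lt_of_le two_pos (two_le_nm p.1)).ne'
  unfold lt
  refine Continuous.div_const (continuous_const.mul (Continuous.pow ?_ _)) _
  exact Continuous.const_cpow continuous_neg (Or.inl hq)

lemma ls_cont (h : GoodG k) {c : HeightOneSpectrum (𝓞 k) × ℕ → ℂ} {B : ℝ}
    (hc : ∀ p, ‖c p‖ ≤ B) : ContinuousOn (fun s => ∑' p, c p * lt h p s) HH := by
  intro s0 hs0
  apply ContinuousAt.continuousWithinAt
  have hs : 3 / 2 < s0.re := hs0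
  set σ : ℝ := (3 / 2 + s0.re) / 2 with hσ
  have hσ1 : 3 / 2 < σ := by rw [hσ]; linarith
  have hσ2 : σ < s0.re := by rw [hσ]; linarith
  have hU : {z : ℂ | σ < z.re} ∈ nhds s0 :=
    (isOpen_lt continuous_const Complex.continuous_re).mem_nhds hσ2
  refine ContinuousOn.continuousAt (s := {z : ℂ | σ < z.re}) ?_ hU
  refine continuousOn_tsum (fun p => (continuous_const.mul (lt_cont h p)).continuousOn)
    ((bd_summable (k := k) hσ1).mul_left B) fun p z hz => ?_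
  rw [norm_mul]
  exact mul_le_mul (hc p) (lt_le h p hσ1.le (le_of_lt hz)) (norm_nonneg _)
    ((norm_nonneg _).trans (hc p))

/-- the Euler product with the exponentials of the local sums -/
lemma ls_prod (h : GoodG k) {c : HeightOneSpectrum (𝓞 k) × ℕ → ℂ} {B : ℝ}
    (hc : ∀ p, ‖c p‖ ≤ B) {s : ℂ} (hs : s ∈ HH) {L : HeightOneSpectrum (𝓞 k) → ℂ}
    (hL : ∀ v, HasSum (fun m => c (v, m) * lt h (v, m) s) (L v)) :
    HasProd (fun v => Complex.exp (L v)) (Complex.exp (∑' p, c p * lt h p s)) := by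
  have h1 := (ls_summable h hc hs).hasSum
  exact (h1.prod_fiberwise hL).cexp

lemma rt_lt (h : GoodG k) (v : HeightOneSpectrum (𝓞 k)) {s : ℂ} (hs : s ∈ HH) :
    ‖rt h v * (nK v : ℂ) ^ (-s)‖ < 1 ∧ ‖(starRingEnd ℂ) (rt h v) * (nK v : ℂ) ^ (-s)‖ < 1 := by
  have h1 := rt_x h v (le_refl s.re)
  have h2 := y_le v (mem_HH_iff.1 hs).le
  rw [norm_mul, norm_mul, RCLike.norm_conj]
  constructor <;> linarith

/-- the local factor of a representation -/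
lemma loc_exp (h : GoodG k) (v : HeightOneSpectrum (𝓞 k)) {s : ℂ} (hs : s ∈ HH) {V : Type}
    [AddCommGroup V] [Module ℂ V] [FiniteDimensional ℂ V] (f : Module.End ℂ V) {N : ℕ} (hN : 0 < N)
    (hf : f ^ (N + 1) = f) :
    ∃ L : ℂ, HasSum (fun m : ℕ => LinearMap.trace ℂ V (f ^ (m + 1)) * lt h (v, m) s) L ∧
      Complex.exp L = (LinearMap.det ((1 : Module.End ℂ V) -
        ((aV (E0 k) v : ℂ) * (nK v : ℂ) ^ (-s)) • f +
        ((eV (E0 k) v : ℂ) * ((nK v : ℂ) ^ (-s)) ^ 2) • f ^ 2))⁻¹ := by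
  obtain ⟨h1, h2⟩ := rt_lt h v hs
  obtain ⟨L, hL, he⟩ := det_exp f hN hf h1 h2
  refine ⟨L, ?_, ?_⟩
  · convert hL using 2 with m
    unfold lt ps
    simp only
    rw [mul_pow, mul_pow]
    ring
  · rw [he, rt_a h, rt_e h]
    congr 4
    · congr 1
      ring
    · ring

/-- **the L-function of the curve is the exponential of the sum** -/
lemma ls_triv (h : GoodG k) {s : ℂ} (hs : s ∈ HH) :
    (E0 k).LSeries s = Complex.exp (∑' p, lt h p s) := by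
  have h1 := (LSeries_hasProd' (E0 k) (hbd h) (mem_HH_iff.1 hs)).2
  have h2 : ∀ v : HeightOneSpectrum (𝓞 k), ∃ L : ℂ, HasSum (fun m : ℕ => 1 * lt h (v, m) s) L ∧
      Complex.exp L = (1 - (aV (E0 k) v : ℂ) * (nm v : ℂ) ^ (-s) +
        (eV (E0 k) v : ℂ) * ((nm v : ℂ) ^ (-s)) ^ 2)⁻¹ := by
    intro v
    obtain ⟨L, hL, he⟩ := loc_exp h v hs (V := ℂ) 1 one_pos (one_pow _)
    refine ⟨L, ?_, ?_⟩
    · convert hL using 3 with m
      rw [one_pow]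
      have : LinearMap.trace ℂ ℂ (1 : Module.End ℂ ℂ) = 1 := by
        rw [LinearMap.trace_one]
        simp
      rw [this]
    · rw [he]
      congr 1
      have : ((1 : Module.End ℂ ℂ) -
        ((aV (E0 k) v : ℂ) * (nK v : ℂ) ^ (-s)) • (1 : Module.End ℂ ℂ) +
        ((eV (E0 k) v : ℂ) * ((nK v : ℂ) ^ (-s)) ^ 2) • (1 : Module.End ℂ ℂ) ^ 2) =
        (1 - (aV (E0 k) v : ℂ) * (nm v : ℂ) ^ (-s) +
        (eV (E0 k) v : ℂ) * ((nm v : ℂ) ^ (-s)) ^ 2) • (1 : Module.End ℂ ℂ) := by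
        rw [one_pow, add_smul, sub_smul, one_smul]
      rw [this, LinearMap.det_smul]
      simp
  choose L hL he using h2
  have h3 := ls_prod h (c := fun _ => 1) (B := 1) (fun p => by simp) hs hL
  simp only [one_mul] at h3
  rw [funext he] at h3
  exact h1.unique h3

end

end Pool.Agent.K7.H70.SE
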