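import Pool.Agent.K7.H70.SE.Gal
import Pool.Agent.R430.R1

/-!
# The L-functions of the Artin representations with rational character
-/

set_option autoImplicit false

namespace Pool.Agent.K7.H70.SE

open Pool.Agent.K7.H70.EQ

open NumberField IsDedekindDomain
open Pool.Agent.K7.H56
open Pool.Agent.R430
open Pool.Agent.Y696
open Pool.Agent.K7.H70.AS
open Pool.Agent.W189.NF (aV eV redMap Ov card_res finite_res)
open Pool.Agent.H921R2.TatePole (nm two_le_nm nm_summable)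
open scoped Classical

/-- the identity theorem for a meromorphic function -/
lemma ident {U : Set ℂ} (hc : IsConnected U) (h1 : (1 : ℂ) ∈ U) (hH : HH ⊆ U) {f R : ℂ → ℂ}
    (hf : AnalyticOnNhd ℂ f U) (hR : MeromorphicOn R Set.univ) (hR1 : AnalyticAt ℂ R 1)
    (he : ∀ s ∈ HH, R s = f s) : R 1 = f 1 := by
  have hg : MeromorphicOn (f - R) U := fun z hz =>
    (hf z hz).meromorphicAt.sub (hR z (Set.mem_univ z))
  have h2 : meromorphicOrderAt (f - R) 2 = ⊤ := by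
    rw [meromorphicOrderAt_eq_top_iff]
    apply Filter.Eventually.filter_mono nhdsWithin_le_nhds
    filter_upwards [isOpen_HH.mem_nhds two_mem] with z hz
    rw [Pi.sub_apply, he z hz, sub_self]
  have h3 : meromorphicOrderAt (f - R) 1 = ⊤ := by
    by_contra h
    exact hg.meromorphicOrderAt_ne_top_of_isPreconnected hc.isPreconnected h1 (hH two_mem) h h2
  rw [meromorphicOrderAt_eq_top_iff] at h3
  have h4 : Filter.Tendsto (f - R) (nhdsWithin 1 {1}ᶜ) (nhds ((f - R) 1)) :=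
    (((hf 1 h1).sub hR1).continuousAt.tendsto).mono_left nhdsWithin_le_nhds
  have h5 : Filter.Tendsto (f - R) (nhdsWithin 1 {1}ᶜ) (nhds 0) :=
    tendsto_const_nhds.congr' (h3.mono fun z hz => hz.symm)
  have h6 := tendsto_nhds_unique h4 h5
  rw [Pi.sub_apply, sub_eq_zero] at h6
  exact h6.symm

section
variable {k : Type} [Field k] [NumberField k]

/-- the function of the field -/
lemma an_HH (h : GoodG k) {Lf : ℂ → ℂ} (hLf : ∀ s : ℂ, 3 / 2 < s.re → Lf s = (E0 k).LSeries s) :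
    AnalyticOnNhd ℂ Lf HH := by
  intro s hs
  have hs' : (3 / 2 : ℝ) < s.re := hs
  have hab : LSeries.abscissaOfAbsConv ((fun n : ℤ => (n : ℂ)) ∘ (E0 k).LFunction) ≤
      ((3 / 2 : ℝ) : EReal) :=
    LSeries.abscissaOfAbsConv_le_of_forall_lt_LSeriesSummable fun y hy =>
      (LSeries_hasProd' (E0 k) (hbd h) (by rw [Complex.ofReal_re]; exact hy)).1
  have h5 := LSeries_analyticOnNhd ((fun n : ℤ => (n : ℂ)) ∘ (E0 k).LFunction) s (by
    refine lt_of_le_of_lt hab ?_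
    exact_mod_cast hs')
  refine h5.congr ?_
  have : {z : ℂ | (3 / 2 : ℝ) < z.re} ∈ nhds s :=
    (isOpen_lt continuous_const Complex.continuous_re).mem_nhds hs'
  filter_upwards [this] with z hz
  exact (hLf z hz).symm

end

section
variable {K F : Type} [Field K] [NumberField K] [Field F] [NumberField F] [Algebra K F]
  {V : Type} [AddCommGroup V] [Module ℂ V] [FiniteDimensional ℂ V]

lemma hasSum_congr' {α : Type} {f g : α → ℂ} {a : ℂ} (h : HasSum f a)
    (hg : ∀ x, g x = f x) : HasSum g a := by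
  rwa [funext hg]

/-- the trace of an average is bounded -/
lemma trace_bd {G : Type} [Group G] [Fintype G] (ρ : Representation ℂ G V) (I : Subgroup G) (g : G) :
    ‖LinearMap.trace ℂ V (avg ρ I g)‖ ≤ ∑ x : G, ‖LinearMap.trace ℂ V (ρ x)‖ := by
  unfold avg
  rw [map_smul, map_sum, smul_eq_mul, norm_mul, norm_inv, Complex.norm_natCast]
  have hI0 : (0 : ℝ) < Nat.card I := by exact_mod_cast Nat.card_pos
  rw [inv_mul_le_iff₀ hI0]
  refine (norm_sum_le _ _).trans ?_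
  have h1 : ∀ i ∈ (Finset.univ : Finset I), ‖LinearMap.trace ℂ V (ρ (g * (i : G))⁻¹)‖ ≤
      ∑ x : G, ‖LinearMap.trace ℂ V (ρ x)‖ := fun i _ =>
    Finset.single_le_sum (f := fun x : G => ‖LinearMap.trace ℂ V (ρ x)‖)
      (fun x _ => norm_nonneg _) (Finset.mem_univ _)
  refine (Finset.sum_le_card_nsmul _ _ _ h1).trans (le_of_eq ?_)
  rw [Finset.card_univ, ← Nat.card_eq_fintype_card, nsmul_eq_mul]

variable [IsGalois K F]

/-- **The main theorem on the L-functions.** -/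
theorem main_rho (hK : GoodG K) (hF : ∀ C : Subgroup Gal(F/K), GoodG (IntermediateField.fixedField C))
    (ρ : Representation ℂ Gal(F/K) V) (χ : Gal(F/K) → ℚ)
    (hχ : ∀ g, LinearMap.trace ℂ V (ρ g) = (χ g : ℂ))
    (w : HeightOneSpectrum (𝓞 K) → HeightOneSpectrum (𝓞 F)) (hw : ∀ v, und0 K (w v) = v)
    (φ : HeightOneSpectrum (𝓞 K) → Gal(F/K))
    (hφ : ∀ v, ∀ x : 𝓞 F,
      φ v • x - x ^ Nat.card (𝓞 K ⧸ (w v).asIdeal.under (𝓞 K)) ∈ (w v).asIdeal) :
    ∃ (U : Set ℂ) (Φ : ℂ → ℂ), IsOpen U ∧ IsConnected U ∧ HH ⊆ U ∧ (1 : ℂ) ∈ U ∧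
      AnalyticOnNhd ℂ Φ U ∧ (∀ s ∈ HH, HasProd (fun v : HeightOneSpectrum (𝓞 K) =>
        (LinearMap.det ((1 : Module.End ℂ V) -
          ((aV (E0 K) v : ℂ) * (nK v : ℂ) ^ (-s)) •
            avg ρ ((w v).asIdeal.inertia Gal(F/K)) (φ v) +
          ((eV (E0 K) v : ℂ) * ((nK v : ℂ) ^ (-s)) ^ 2) •
            avg ρ ((w v).asIdeal.inertia Gal(F/K)) (φ v) ^ 2))⁻¹) (Φ s)) ∧ Φ 1 ≠ 0 ∧
      ∃ m : ℕ, 0 < m ∧ ∃ R : ℂ → ℂ, MeromorphicOn R Set.univ ∧ AnalyticAt ℂ R 1 ∧ R 1 ≠ 0 ∧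
        ∀ s ∈ HH, R s = Φ s ^ m := by
  obtain ⟨m0, n, hm0, hn⟩ := artin_ind χ (ratCls_of_trace ρ χ hχ)
  set A : HeightOneSpectrum (𝓞 K) → Module.End ℂ V := fun v =>
    avg ρ ((w v).asIdeal.inertia Gal(F/K)) (φ v) with hA
  have hq : ∀ v, Nat.card (𝓞 K ⧸ (w v).asIdeal.under (𝓞 K)) ≠ 0 := by
    intro v
    have h1 : Nat.card (𝓞 K ⧸ (w v).asIdeal.under (𝓞 K)) = nK (und0 K (w v)) :=
      card_nm (und0 K (w v))
    rw [h1]
    exact (lt_of_lt_of_le two_pos (two_le_nm _)).ne'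
  have hI : ∀ v, ∀ i ∈ (w v).asIdeal.inertia Gal(F/K),
      (φ v)⁻¹ * i * φ v ∈ (w v).asIdeal.inertia Gal(F/K) := by
    intro v
    have := (w v).isPrime
    exact frob_conj (hq v) (hφ v)
  set c : HeightOneSpectrum (𝓞 K) × ℕ → ℂ := fun p =>
    LinearMap.trace ℂ V (A p.1 ^ (p.2 + 1)) with hc
  set B : ℝ := ∑ x : Gal(F/K), ‖LinearMap.trace ℂ V (ρ x)‖ with hB
  have hcB : ∀ p, ‖c p‖ ≤ B := by
    intro p
    rw [hc]
    simp only [hA]
    rw [avg_pow ρ _ (hI p.1)]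
    exact trace_bd ρ _ _
  have hloc : ∀ s ∈ HH, ∀ v, ∃ L : ℂ, HasSum (fun m : ℕ => c (v, m) * lt hK (v, m) s) L ∧
      Complex.exp L = (LinearMap.det ((1 : Module.End ℂ V) -
        ((aV (E0 K) v : ℂ) * (nK v : ℂ) ^ (-s)) • A v +
        ((eV (E0 K) v : ℂ) * ((nK v : ℂ) ^ (-s)) ^ 2) • A v ^ 2))⁻¹ := fun s hs v =>
    loc_exp hK v hs (A v) (N := orderOf (φ v)) (orderOf_pos _) (avg_fin ρ _ (hI v))
  -- the relation
  have hrel : ∀ s ∈ HH, (m0 : ℂ) * (∑' p, c p * lt hK p s) =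
      ∑ C : Subgroup Gal(F/K), (n C : ℂ) * (∑' p, lt (hF C) p s) := by
    intro s hs
    have h1 := ((ls_summable hK hcB hs).hasSum).mul_left (m0 : ℂ)
    have h2 : HasSum (fun p : HeightOneSpectrum (𝓞 K) × ℕ => ∑ C : Subgroup Gal(F/K), (n C : ℂ) *
        ((cf K (IntermediateField.fixedField C) p : ℂ) * lt hK p s))
        (∑ C : Subgroup Gal(F/K), (n C : ℂ) * (∑' p, lt (hF C) p s)) :=
      hasSum_sum fun C _ => (sum_up hK (hF C) (rdOk C) hs).mul_left (n C : ℂ)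
    refine h1.unique (hasSum_congr' h2 ?_)
    rintro ⟨v, m⟩
    have h3 := trace_avg ρ ((w v).asIdeal.inertia Gal(F/K)) (hI v) hχ hn m
    have h4 : ∀ C : Subgroup Gal(F/K),
        ((∑ i : (w v).asIdeal.inertia Gal(F/K), fixN C (φ v ^ (m + 1) * i) : ℕ) : ℂ) =
        (Nat.card ((w v).asIdeal.inertia Gal(F/K)) : ℂ) *
          (cf K (IntermediateField.fixedField C) (v, m) : ℂ) := by
      intro C
      rw [(loc_id C (w v) (hφ v)).2 m, hw v]
      push_cast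
      rfl
    have h5 : (Nat.card ((w v).asIdeal.inertia Gal(F/K)) : ℂ) ≠ 0 := by
      exact_mod_cast Nat.card_pos.ne'
    simp only [h4] at h3
    show (m0 : ℂ) * (LinearMap.trace ℂ V (A v ^ (m + 1)) * lt hK (v, m) s) = _
    rw [← mul_assoc, h3, Finset.sum_mul]
    refine Finset.sum_congr rfl fun C _ => ?_
    field_simp
  -- the functions of the fixed fields
  choose Lf hLf using fun C : Subgroup Gal(F/K) => (hF C).an
  have hL1 := fun C => (hLf C).mero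
  have hL2 := fun C => (hLf C).sum
  have hL3 := fun C => (hLf C).an
  have hL4 := fun C => (hLf C).ne
  obtain ⟨U, Φ, g1, g2, g3, g4, g5, g6, g7, R, r1, r2, r3, r4⟩ :=
    cont_root (f := Lf) (Λ := fun C s => ∑' p, lt (hF C) p s) (n := n) hm0
      (Λ0 := fun s => ∑' p, c p * lt hK p s) hL1 hL3 hL4
      (fun C => an_HH (hF C) fun s hs => (hL2 C s hs).2)
      (fun C s hs => ((hL2 C s hs).2).trans (ls_triv (hF C) hs)) (ls_cont hK hcB) hrel
  refine ⟨U, Φ, g1, g2, g3, g4, g5, fun s hs => ?_, g7, m0, hm0, R, r1, r2, r3, fun s hs => ?_⟩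
  · choose L hL he using hloc s hs
    have h1 := ls_prod hK hcB hs hL
    rw [funext he] at h1
    rw [g6 s hs]
    exact h1
  · rw [r4 s hs, g6 s hs]

end

end Pool.Agent.K7.H70.SE
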